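import Mathlib

/-!
The height of ideals between powers of the irrelevant ideal.
-/

set_option autoImplicit false

namespace Pool.Agent.X51.Golod

open MvPolynomial

variable {K : Type} [Field K] {n : ℕ}

/-- kill the variables of index less than `i` -/
noncomputable def kil (K : Type) [Field K] (n i : ℕ) :
    MvPolynomial (Fin n) K →ₐ[K] MvPolynomial (Fin n) K :=
  aeval (fun j : Fin n => if (j : ℕ) < i then 0 else X j)

theorem kil_height : ∀ i : ℕ, i ≤ n → (i : ℕ∞) ≤ (RingHom.ker (kil K n i)).height := by
  intro i
  induction i with
  | zero => intro _; simp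
  | succ i ih =>
    intro hi
    have h1 := ih (by omega)
    have hlt : RingHom.ker (kil K n i) < RingHom.ker (kil K n (i + 1)) := by
      refine lt_of_le_of_ne ?_ ?_
      · intro f hf
        rw [RingHom.mem_ker] at hf ⊢
        have hcomp : (kil K n (i + 1)).comp (kil K n i) = kil K n (i + 1) := by
          apply MvPolynomial.algHom_ext
          intro j
          unfold kil
          rw [AlgHom.comp_apply, MvPolynomial.aeval_X, MvPolynomial.aeval_X]
          by_cases hj : (j : ℕ) < i
          · rw [if_pos hj, if_pos (by omega), map_zero]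
          · rw [if_neg hj, MvPolynomial.aeval_X]
        rw [← hcomp, AlgHom.comp_apply, hf, map_zero]
      · intro heq
        have h2 : (MvPolynomial.X (⟨i, by omega⟩ : Fin n) : MvPolynomial (Fin n) K) ∈
            RingHom.ker (kil K n (i + 1)) := by
          rw [RingHom.mem_ker]
          unfold kil
          rw [MvPolynomial.aeval_X, if_pos (by simp)]
        rw [← heq, RingHom.mem_ker] at h2
        unfold kil at h2
        rw [MvPolynomial.aeval_X, if_neg (by simp)] at h2
        exact MvPolynomial.X_ne_zero _ h2
    have hp1 : (RingHom.ker (kil K n i)).IsPrime := RingHom.ker_isPrime _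
    have hp2 : (RingHom.ker (kil K n (i + 1))).IsPrime := RingHom.ker_isPrime _
    have h3 := Ideal.height_add_one_le_of_lt_of_isPrime hlt
    push_cast
    exact le_trans (by gcongr) h3

lemma mem_idealOfVars (f : MvPolynomial (Fin n) K) :
    f ∈ idealOfVars (Fin n) K ↔ eval 0 f = 0 := by
  rw [← pow_one (idealOfVars (Fin n) K), mem_pow_idealOfVars_iff']
  constructor
  · intro h
    rw [eval_zero, constantCoeff_eq]
    exact h 0 (by simp)
  · intro h x hx
    rw [eval_zero, constantCoeff_eq] at h
    have : x = 0 := by
      rw [← Finsupp.degree_eq_zero_iff]; omega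
    rw [this]; exact h

lemma vars_prime : (idealOfVars (Fin n) K).IsPrime := by
  have h1 : idealOfVars (Fin n) K = RingHom.ker (eval (0 : Fin n → K)) := by
    ext f
    rw [RingHom.mem_ker, mem_idealOfVars]
  rw [h1]
  exact RingHom.ker_isPrime _

lemma height_vars : (idealOfVars (Fin n) K).height = n := by
  apply le_antisymm
  · have hne : idealOfVars (Fin n) K ≠ ⊤ := vars_prime.ne_top
    refine (Ideal.height_le_spanFinrank _ hne).trans ?_
    have h1 : (Submodule.span (MvPolynomial (Fin n) K) (Set.range X)).spanFinrank ≤
        (Set.range (X : Fin n → MvPolynomial (Fin n) K)).ncard :=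
      Submodule.spanFinrank_span_le_ncard_of_finite (Set.finite_range X)
    have h2 : (Set.range (X : Fin n → MvPolynomial (Fin n) K)).ncard ≤ n := by
      rw [← Set.image_univ]
      refine (Set.ncard_image_le Set.finite_univ).trans ?_
      rw [Set.ncard_univ, Nat.card_eq_fintype_card, Fintype.card_fin]
    exact_mod_cast h1.trans h2
  · have h1 := kil_height (K := K) (n := n) n le_rfl
    have h2 : RingHom.ker (kil K n n) = idealOfVars (Fin n) K := by
      ext f
      rw [RingHom.mem_ker, mem_idealOfVars]
      have h3 : kil K n n = (MvPolynomial.aeval (0 : Fin n → MvPolynomial (Fin n) K)) := by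
        unfold kil
        congr 1
        funext j
        rw [if_pos j.2]
        rfl
      rw [h3, MvPolynomial.aeval_zero, MvPolynomial.algebraMap_eq, MvPolynomial.C_eq_zero,
        MvPolynomial.eval_zero]
    rw [h2] at h1
    exact h1

/-- an ideal between `𝔪^e` and `𝔪` has height `n` -/
lemma height_eq (I : Ideal (MvPolynomial (Fin n) K)) (e : ℕ)
    (h1 : I ≤ idealOfVars (Fin n) K) (h2 : idealOfVars (Fin n) K ^ e ≤ I) : I.height = n := by
  apply le_antisymm
  · rw [← height_vars (K := K) (n := n)]
    exact Ideal.height_mono h1
  · rw [Ideal.height_eq_inf_minimalPrimes]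
    refine le_iInf₂ fun J hJ => ?_
    have hJp : J.IsPrime := hJ.1.1
    have h3 : idealOfVars (Fin n) K ≤ J := hJp.le_of_pow_le (h2.trans hJ.1.2)
    rw [← height_vars (K := K) (n := n)]
    exact Ideal.height_mono h3

end Pool.Agent.X51.Golod
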