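import Pool.Agent.H677R3.RegKoszul

/-!
Koszul complexes, trivial Massey operations and Golod rings.
-/

set_option autoImplicit false

namespace Pool.Agent.X51.Golod

open Finset

variable {K R : Type} [Field K] [CommRing R] [Algebra K R] {n : ℕ}

/-- The differential of the Koszul complex of `x_1, …, x_n` over `R`. An element `∑_T f_T e_T` is
given by its coefficients `f T`, `T ⊆ {1, …, n}`; `bd x f T` is the coefficient of `e_T` in its
differential. -/
def bd (x : Fin n → R) (f : Finset (Fin n) → R) (T : Finset (Fin n)) : R :=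
  ∑ j ∈ Tᶜ, (-1) ^ (T.filter (· < j)).card * (x j * f (insert j T))

/-- The product of the Koszul complex: `e_A e_B = (-1)^{#{(a, b) ∈ A × B : b < a}} e_{A ∪ B}` if `A`
and `B` are disjoint, and `0` otherwise. -/
def mul (f g : Finset (Fin n) → R) (T : Finset (Fin n)) : R :=
  ∑ A ∈ T.powerset, (-1) ^ ((A ×ˢ (T \ A)).filter (fun p => p.2 < p.1)).card * (f A * g (T \ A))

/-- `f` is homogeneous of degree `i` in the Koszul complex. -/
def Hom (i : ℕ) (f : Finset (Fin n) → R) : Prop := ∀ T, T.card ≠ i → f T = 0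

/-- `bar f = (-1)^(i + 1) f` for `f` of degree `i`. -/
def bar (f : Finset (Fin n) → R) (T : Finset (Fin n)) : R := (-1) ^ (T.card + 1) * f T

/-- The Koszul complex `K(x_1, …, x_n; R)` has a trivial Massey operation: there are index sets
`ι i` for bases of `H_{i+1}` and a function `μ` on lists of indices with values in the Koszul
complex such that (1) the `μ [b]`, `b ∈ ι i`, are `(i+1)`-cycles whose classes are a `K`-basis of
`H_{i+1}`; (2) `μ (b_1, …, b_p)` is homogeneous of degree `∑ (|b_j| + 1) - 1` and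
`∂ μ (b_1, …, b_p) = ∑_{0 < j < p} bar (μ (b_1, …, b_j)) μ (b_{j+1}, …, b_p)` for `p ≥ 2`. -/
def IsGolod (K : Type) [Field K] [Algebra K R] (x : Fin n → R) : Prop :=
  ∃ (ι : ℕ → Type) (μ : List (Σ i, ι i) → Finset (Fin n) → R),
    (∀ l, l ≠ [] → Hom ((l.map fun b => b.1 + 2).sum - 1) (μ l)) ∧
    (∀ b, bd x (μ [b]) = 0) ∧
    (∀ i z, Hom (i + 1) z → bd x z = 0 → ∃! c : ι i →₀ K,
      ∃ w, Hom (i + 2) w ∧ z = (c.sum fun b a => a • μ [⟨i, b⟩]) + bd x w) ∧
    (∀ l, 2 ≤ l.length → bd x (μ l) =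
      ∑ j ∈ Finset.Ico 1 l.length, mul (bar (μ (l.take j))) (μ (l.drop j)))

lemma bd_add (x : Fin n → R) (f g : Finset (Fin n) → R) : bd x (f + g) = bd x f + bd x g := by
  funext T
  simp only [bd, Pi.add_apply]
  rw [← Finset.sum_add_distrib]
  exact Finset.sum_congr rfl fun j _ => by ring

lemma bd_zero (x : Fin n → R) : bd x (0 : Finset (Fin n) → R) = 0 := by
  funext T
  simp [bd]

lemma bd_smul (x : Fin n → R) (a : K) (f : Finset (Fin n) → R) : bd x (a • f) = a • bd x f := by
  funext T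
  simp only [bd, Pi.smul_apply]
  rw [Finset.smul_sum]
  refine Finset.sum_congr rfl fun j _ => ?_
  rw [mul_smul_comm, mul_smul_comm]

lemma mul_zero' (f : Finset (Fin n) → R) : mul f 0 = 0 := by
  funext T
  simp [mul]

lemma zero_mul' (f : Finset (Fin n) → R) : mul 0 f = 0 := by
  funext T
  simp [mul]

lemma bar_zero : bar (0 : Finset (Fin n) → R) = 0 := by
  funext T
  simp [bar]

/-- the boundaries of degree `i + 1` -/
def Bd (K : Type) [Field K] [Algebra K R] (x : Fin n → R) (i : ℕ) :
    Submodule K (Finset (Fin n) → R) where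
  carrier := {y | ∃ w, Hom (i + 2) w ∧ y = bd x w}
  add_mem' := by
    rintro _ _ ⟨w, hw, rfl⟩ ⟨w', hw', rfl⟩
    refine ⟨w + w', fun T hT => ?_, (bd_add x w w').symm⟩
    rw [Pi.add_apply, hw T hT, hw' T hT, add_zero]
  zero_mem' := ⟨0, fun _ _ => rfl, (bd_zero x).symm⟩
  smul_mem' := by
    rintro a _ ⟨w, hw, rfl⟩
    refine ⟨a • w, fun T hT => ?_, (bd_smul x a w).symm⟩
    rw [Pi.smul_apply, hw T hT, smul_zero]

lemma mem_Bd {x : Fin n → R} {i : ℕ} {y : Finset (Fin n) → R} :
    y ∈ Bd K x i ↔ ∃ w, Hom (i + 2) w ∧ y = bd x w := Iff.rfl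

section crit

variable {ι : ℕ → Type}

/-- the Massey operation of the criterion -/
def mu (z : (Σ i, ι i) → Finset (Fin n) → R) (u : (Σ i, ι i) → (Σ i, ι i) → Finset (Fin n) → R) :
    List (Σ i, ι i) → Finset (Fin n) → R
  | [] => 0
  | [b] => z b
  | [b, b'] => u b b'
  | _ :: _ :: _ :: _ => 0

lemma mu_long (z : (Σ i, ι i) → Finset (Fin n) → R)
    (u : (Σ i, ι i) → (Σ i, ι i) → Finset (Fin n) → R) (l : List (Σ i, ι i)) (h : 3 ≤ l.length) :
    mu z u l = 0 := by
  match l, h with
  | _ :: _ :: _ :: _, _ => rfl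

end crit

/-- A criterion: cycles in `G` generate the homology, products of two of them are boundaries of
elements with the property `P`, and all other products vanish. -/
theorem golod_crit (x : Fin n → R) (G : ℕ → Set (Finset (Fin n) → R))
    (P : (Finset (Fin n) → R) → Prop)
    (h1 : ∀ i, ∀ g ∈ G i, Hom (i + 1) g ∧ bd x g = 0)
    (h2 : ∀ i z, Hom (i + 1) z → bd x z = 0 →
      ∃ y ∈ Submodule.span K (G i), ∃ w, Hom (i + 2) w ∧ z = y + bd x w)
    (h3 : ∀ i j, ∀ g ∈ G i, ∀ h ∈ G j,
      ∃ u, Hom (i + j + 3) u ∧ bd x u = mul (bar g) h ∧ P u)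
    (h4 : ∀ i, ∀ g ∈ G i, ∀ u, P u → mul (bar g) u = 0 ∧ mul (bar u) g = 0)
    (h5 : ∀ u u', P u → P u' → mul (bar u) u' = 0) : IsGolod K x := by
  classical
  have hb : ∀ i, ∃ b : Set ((Finset (Fin n) → R) ⧸ Bd K x i), b ⊆ (Bd K x i).mkQ '' (G i) ∧
      Submodule.span K b = Submodule.span K ((Bd K x i).mkQ '' (G i)) ∧
        LinearIndependent K (Subtype.val : b → (Finset (Fin n) → R) ⧸ Bd K x i) :=
    fun i => exists_linearIndependent K _
  choose b hb1 hb2 hb3 using hb
  have hz : ∀ s : Σ i, b i, ∃ g ∈ G s.1, (Bd K x s.1).mkQ g = s.2.val := by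
    rintro ⟨i, s, hs⟩
    obtain ⟨g, hg, h⟩ := hb1 i hs
    exact ⟨g, hg, h⟩
  choose z hz1 hz2 using hz
  have hu : ∀ s t : Σ i, b i, ∃ u, Hom (s.1 + t.1 + 3) u ∧ bd x u = mul (bar (z s)) (z t) ∧ P u :=
    fun s t => h3 _ _ _ (hz1 s) _ (hz1 t)
  choose u hu1 hu2 hu3 using hu
  refine ⟨fun i => b i, mu z u, ?_, ?_, ?_, ?_⟩
  · intro l hl
    match l, hl with
    | [s], _ =>
      have := (h1 _ _ (hz1 s)).1
      simpa [mu] using this
    | [s, t], _ =>
      have := hu1 s t
      have h6 : ([s, t].map fun b => b.1 + 2).sum - 1 = s.1 + t.1 + 3 := by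
        simp
        omega
      rw [h6]
      exact this
    | _ :: _ :: _ :: _, _ =>
      intro T _
      rfl
  · intro s
    exact (h1 _ _ (hz1 s)).2
  · intro i y hy hy0
    have hsum : ∀ c : b i →₀ K, (Bd K x i).mkQ (c.sum fun s a => a • mu z u [⟨i, s⟩]) =
        c.sum fun s a => a • s.val := by
      intro c
      rw [map_finsuppSum]
      refine Finsupp.sum_congr fun s _ => ?_
      rw [map_smul]
      congr 1
      exact hz2 ⟨i, s⟩
    obtain ⟨y', hy', w, hw, hyw⟩ := h2 i y hy hy0
    have h7 : (Bd K x i).mkQ y' ∈ Submodule.span K (Set.range (Subtype.val : b i → _)) := by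
      rw [Subtype.range_coe, hb2]
      rw [← Submodule.map_span]
      exact Submodule.mem_map_of_mem hy'
    rw [Finsupp.mem_span_range_iff_exists_finsupp] at h7
    obtain ⟨c, hc⟩ := h7
    refine ⟨c, ?_, ?_⟩
    · have h8 : (Bd K x i).mkQ (c.sum fun s a => a • mu z u [⟨i, s⟩]) = (Bd K x i).mkQ y' := by
        rw [hsum, hc]
      have h9 : y' - (c.sum fun s a => a • mu z u [⟨i, s⟩]) ∈ Bd K x i := by
        rw [← Submodule.Quotient.mk_eq_zero, ← Submodule.mkQ_apply, map_sub, h8, sub_self]
      obtain ⟨w', hw', hh⟩ := h9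
      refine ⟨w' + w, fun T hT => ?_, ?_⟩
      · rw [Pi.add_apply, hw T hT, hw' T hT, add_zero]
      · rw [bd_add, ← hh, hyw]
        abel
    · rintro c' ⟨w', hw', hh⟩
      have h8 : (Bd K x i).mkQ y = c'.sum fun s a => a • s.val := by
        rw [hh, map_add, hsum]
        have : (Bd K x i).mkQ (bd x w') = 0 := by
          rw [Submodule.mkQ_apply, Submodule.Quotient.mk_eq_zero]
          exact ⟨w', hw', rfl⟩
        rw [this, add_zero]
      have h9 : (Bd K x i).mkQ y = c.sum fun s a => a • s.val := by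
        rw [hyw, map_add, hc]
        have : (Bd K x i).mkQ (bd x w) = 0 := by
          rw [Submodule.mkQ_apply, Submodule.Quotient.mk_eq_zero]
          exact ⟨w, hw, rfl⟩
        rw [this, add_zero]
      have h10 := hb3 i
      rw [LinearIndependent] at h10
      apply h10
      rw [Finsupp.linearCombination_apply, Finsupp.linearCombination_apply, ← h8, ← h9]
  · intro l hl
    match l, hl with
    | [s, t], _ =>
      rw [show ([s, t] : List (Σ i, b i)).length = 2 from rfl,
        show Finset.Ico 1 2 = {1} from rfl, Finset.sum_singleton]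
      exact hu2 s t
    | [s, t, r], _ =>
      rw [show ([s, t, r] : List (Σ i, b i)).length = 3 from rfl,
        show Finset.Ico 1 3 = {1, 2} from rfl, Finset.sum_pair (by norm_num)]
      have h6 : mul (bar (mu z u (List.take 1 [s, t, r]))) (mu z u (List.drop 1 [s, t, r])) = 0 :=
        (h4 _ _ (hz1 s) _ (hu3 t r)).1
      have h7 : mul (bar (mu z u (List.take 2 [s, t, r]))) (mu z u (List.drop 2 [s, t, r])) = 0 :=
        (h4 _ _ (hz1 r) _ (hu3 s t)).2
      rw [h6, h7, add_zero, mu_long _ _ _ (by simp), bd_zero]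
    | a1 :: a2 :: a3 :: a4 :: l', _ =>
      rw [mu_long _ _ _ (by simp), bd_zero]
      symm
      refine Finset.sum_eq_zero fun j hj => ?_
      rw [Finset.mem_Ico] at hj
      by_cases h3' : 3 ≤ j
      · rw [mu_long _ _ (List.take j _) (by rw [List.length_take]; omega), bar_zero, zero_mul']
      · by_cases h4' : 3 ≤ (a1 :: a2 :: a3 :: a4 :: l').length - j
        · rw [mu_long _ _ (List.drop j _) (by rw [List.length_drop]; omega), mul_zero']
        · have hl0 : l' = [] := by
            simp only [List.length_cons] at h4'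
            rw [← List.length_eq_zero_iff]
            omega
          have hj2 : j = 2 := by
            simp only [List.length_cons] at h4'
            omega
          subst hl0 hj2
          exact h5 _ _ (hu3 a1 a2) (hu3 a3 a4)

end Pool.Agent.X51.Golod
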