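import Pool.Agent.X51.Golod.Basic

/-!
Lifting Koszul cycles of a quotient of a polynomial ring to the polynomial ring.
-/

set_option autoImplicit false

namespace Pool.Agent.X51.Golod

open Finset MvPolynomial Pool.Agent.H677R3.EdgeReg

variable {K : Type} [Field K] {n : ℕ}

/-- the variables in the quotient -/
noncomputable abbrev xb (I : Ideal (MvPolynomial (Fin n) K)) (j : Fin n) :
    MvPolynomial (Fin n) K ⧸ I := Ideal.Quotient.mk I (X j)

/-- the class of a chain -/
noncomputable def mkc (I : Ideal (MvPolynomial (Fin n) K))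
    (p : Finset (Fin n) → MvPolynomial (Fin n) K) (T : Finset (Fin n)) :
    MvPolynomial (Fin n) K ⧸ I := Ideal.Quotient.mk I (p T)

lemma bd_mkc (I : Ideal (MvPolynomial (Fin n) K)) (p : Finset (Fin n) → MvPolynomial (Fin n) K) :
    bd (xb I) (mkc I p) = mkc I (koszulD p) := by
  funext T
  simp only [bd, mkc, koszulD, map_sum, map_mul, map_pow, map_neg, map_one]

lemma mkc_add (I : Ideal (MvPolynomial (Fin n) K)) (p q : Finset (Fin n) → MvPolynomial (Fin n) K) :
    mkc I (p + q) = mkc I p + mkc I q := by
  funext T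
  simp [mkc]

/-- every homogeneous element of the Koszul complex lifts -/
lemma exists_lift (I : Ideal (MvPolynomial (Fin n) K)) (i : ℕ)
    (z : Finset (Fin n) → MvPolynomial (Fin n) K ⧸ I) (hz : Hom i z) :
    ∃ p : Finset (Fin n) → MvPolynomial (Fin n) K, Hom i p ∧ mkc I p = z := by
  classical
  choose f hf using fun T => Ideal.Quotient.mk_surjective (z T)
  refine ⟨fun T => if T.card = i then f T else 0, fun T hT => if_neg hT, ?_⟩
  funext T
  simp only [mkc]
  split_ifs with h
  · exact hf T
  · rw [map_zero, hz T h]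

/-- homogeneous component of the coefficients -/
noncomputable def hc (c : ℕ) (p : Finset (Fin n) → MvPolynomial (Fin n) K) (T : Finset (Fin n)) :
    MvPolynomial (Fin n) K := homogeneousComponent c (p T)

lemma hc_X_mul (c : ℕ) (j : Fin n) (q : MvPolynomial (Fin n) K) :
    homogeneousComponent (c + 1) (X j * q) = X j * homogeneousComponent c q := by
  classical
  ext d
  rw [coeff_homogeneousComponent, coeff_X_mul', coeff_X_mul']
  by_cases h : j ∈ d.support
  · rw [if_pos h, if_pos h, coeff_homogeneousComponent]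
    have h1 : d.degree = (d - Finsupp.single j 1).degree + 1 := by
      have h2 : d - Finsupp.single j 1 + Finsupp.single j 1 = d := by
        apply tsub_add_cancel_of_le
        rw [Finsupp.single_le_iff]
        rw [Finsupp.mem_support_iff] at h
        omega
      conv_lhs => rw [← h2]
      rw [map_add, Finsupp.degree_single]
    by_cases h3 : (d - Finsupp.single j 1).degree = c
    · rw [if_pos h3, if_pos (by omega)]
    · rw [if_neg h3, if_neg (by omega)]
  · rw [if_neg h, if_neg h]
    simp

lemma koszulD_hc (c : ℕ) (p : Finset (Fin n) → MvPolynomial (Fin n) K) (T : Finset (Fin n)) :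
    koszulD (hc c p) T = homogeneousComponent (c + 1) (koszulD p T) := by
  unfold koszulD hc
  rw [map_sum]
  refine Finset.sum_congr rfl fun j _ => ?_
  rw [← hc_X_mul]
  have h : ((-1 : MvPolynomial (Fin n) K)) ^ (T.filter (· < j)).card =
      C ((-1) ^ (T.filter (· < j)).card) := by simp
  rw [h, homogeneousComponent_C_mul]

/-- exactness of the Koszul complex of the polynomial ring in positive degrees -/
lemma exact_poly (i c : ℕ) (p : Finset (Fin n) → MvPolynomial (Fin n) K)
    (hp : Hom (i + 1) p) (hh : ∀ T, (p T).IsHomogeneous c) (hd : ∀ T, koszulD p T = 0) :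
    ∃ q : Finset (Fin n) → MvPolynomial (Fin n) K, Hom (i + 2) q ∧ ∀ T, koszulD q T = p T := by
  by_contra hcon
  refine upper_transfer (k := K) (⊤ : Ideal (MvPolynomial (Fin n) K)) (fun _ => True)
    (by simp) (i + 1) c ?_ ⟨p, fun _ => trivial, hh, hp, hd, ?_⟩
  · intro b hb a ha hac
    obtain ⟨v, hbv⟩ : ∃ v, b v ≠ 0 := by
      by_contra h
      push Not at h
      rw [Finset.sum_eq_zero (fun v _ => h v)] at hb
      omega
    refine ⟨hv v a, fun T hT => ?_, fun T => ?_⟩
    · unfold hv at hT
      split_ifs at hT with hvT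
      · have h1 : a (T.erase v) ≠ 0 := fun h => hT (by rw [h, mul_zero])
        obtain ⟨⟨h2, -⟩, h3⟩ := ha _ h1
        refine ⟨⟨fun w => ?_, trivial⟩, ?_⟩
        · have h4 := h2 w
          rw [ind_apply] at h4 ⊢
          by_cases hw : w = v
          · subst hw
            rw [if_pos hvT]
            omega
          · simp only [Finset.mem_erase, ne_eq, hw, not_false_eq_true, true_and] at h4
            exact h4
        · rw [Finset.card_erase_of_mem hvT] at h3
          have : 0 < T.card := Finset.card_pos.mpr ⟨v, hvT⟩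
          omega
      · exact absurd rfl hT
    · have h1 := homotopy v a T
      have h2 : hv v (cd a) T = 0 := by
        unfold hv
        split_ifs
        · rw [hac, mul_zero]
        · rfl
      rwa [h2, add_zero] at h1
  · rintro ⟨g, -, hg1, hg2⟩
    exact hcon ⟨g, hg1, hg2⟩

lemma koszulD_add (p q : Finset (Fin n) → MvPolynomial (Fin n) K) :
    koszulD (p + q) = koszulD p + koszulD q := by
  funext T
  simp only [koszulD, Pi.add_apply]
  rw [← Finset.sum_add_distrib]
  exact Finset.sum_congr rfl fun j _ => by ring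

lemma koszulD_zero : koszulD (0 : Finset (Fin n) → MvPolynomial (Fin n) K) = 0 := by
  funext T
  simp [koszulD]

lemma koszulD_sum {α : Type*} (s : Finset α) (p : α → Finset (Fin n) → MvPolynomial (Fin n) K) :
    koszulD (∑ c ∈ s, p c) = ∑ c ∈ s, koszulD (p c) := by
  classical
  induction s using Finset.induction_on with
  | empty => simp [koszulD_zero]
  | insert a s ha ih => rw [Finset.sum_insert ha, Finset.sum_insert ha, koszulD_add, ih]

lemma mkc_zero (I : Ideal (MvPolynomial (Fin n) K)) :
    mkc I (0 : Finset (Fin n) → MvPolynomial (Fin n) K) = 0 := by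
  funext T
  simp [mkc]

/-- products of chains with coefficients in `A` and `B` vanish if `A B ⊆ I` -/
lemma mul_eq_zero_of {I A B : Ideal (MvPolynomial (Fin n) K)} (h : A * B ≤ I)
    {p q : Finset (Fin n) → MvPolynomial (Fin n) K} (hp : ∀ T, p T ∈ A) (hq : ∀ T, q T ∈ B) :
    mul (bar (mkc I p)) (mkc I q) = 0 := by
  funext T
  simp only [mul, bar, mkc]
  refine Finset.sum_eq_zero fun U _ => ?_
  rw [mul_assoc ((-1) ^ (U.card + 1)), ← map_mul,
    Ideal.Quotient.eq_zero_iff_mem.mpr (h (Ideal.mul_mem_mul (hp _) (hq _))), mul_zero, mul_zero]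

/-- If `𝔪^(2v-2) ⊆ I ⊆ 𝔪^v` then `S / I` is Golod. -/
theorem golod_low (I : Ideal (MvPolynomial (Fin n) K)) (v : ℕ)
    (h1 : I ≤ idealOfVars (Fin n) K ^ v) (h2 : idealOfVars (Fin n) K ^ (2 * v - 2) ≤ I) :
    IsGolod K (xb I) := by
  classical
  have hm : idealOfVars (Fin n) K ^ (v - 1) * idealOfVars (Fin n) K ^ (v - 1) ≤ I := by
    rw [← pow_add]
    refine le_trans (Ideal.pow_le_pow_right ?_) h2
    omega
  refine golod_crit (xb I) (fun i => {z | Hom (i + 1) z ∧ bd (xb I) z = 0 ∧
    ∃ p : Finset (Fin n) → MvPolynomial (Fin n) K, (∀ T, p T ∈ idealOfVars (Fin n) K ^ (v - 1)) ∧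
      mkc I p = z}) (fun u => u = 0) ?_ ?_ ?_ ?_ ?_
  · rintro i g ⟨hg1, hg2, -⟩
    exact ⟨hg1, hg2⟩
  · intro i z hz hz0
    obtain ⟨p, hp, rfl⟩ := exists_lift I (i + 1) z hz
    rw [bd_mkc] at hz0
    have hpI : ∀ T, koszulD p T ∈ I := fun T =>
      Ideal.Quotient.eq_zero_iff_mem.mp (congrFun hz0 T)
    have hc0 : ∀ c, c + 1 < v → ∀ T, koszulD (hc c p) T = 0 := by
      intro c hcv T
      rw [koszulD_hc]
      apply homogeneousComponent_eq_zero'
      intro d hd
      have := (mem_pow_idealOfVars_iff v _).mp (h1 (hpI T)) d hd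
      omega
    have hq : ∀ c, ∃ q : Finset (Fin n) → MvPolynomial (Fin n) K,
        c + 1 < v → Hom (i + 2) q ∧ ∀ T, koszulD q T = hc c p T := by
      intro c
      by_cases hcv : c + 1 < v
      · obtain ⟨q, hq1, hq2⟩ := exact_poly i c (hc c p)
          (fun T hT => by simp only [hc, hp T hT, map_zero])
          (fun T => homogeneousComponent_isHomogeneous _ _) (hc0 c hcv)
        exact ⟨q, fun _ => ⟨hq1, hq2⟩⟩
      · exact ⟨0, fun h => absurd h hcv⟩
    choose q hq using hq
    have hlow : koszulD (∑ c ∈ Finset.range (v - 1), q c) = ∑ c ∈ Finset.range (v - 1), hc c p := by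
      rw [koszulD_sum]
      refine Finset.sum_congr rfl fun c hc' => ?_
      rw [Finset.mem_range] at hc'
      funext T
      exact (hq c (by omega)).2 T
    refine ⟨mkc I (p - ∑ c ∈ Finset.range (v - 1), hc c p), Submodule.subset_span ⟨?_, ?_,
      _, ?_, rfl⟩, mkc I (∑ c ∈ Finset.range (v - 1), q c), ?_, ?_⟩
    · intro T hT
      simp only [mkc, Pi.sub_apply, Finset.sum_apply, hc, hp T hT, map_zero, Finset.sum_const_zero,
        sub_zero]
    · rw [bd_mkc]
      have : koszulD (p - ∑ c ∈ Finset.range (v - 1), hc c p) = koszulD p := by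
        have h3 : koszulD (∑ c ∈ Finset.range (v - 1), hc c p) = 0 := by
          rw [koszulD_sum]
          refine Finset.sum_eq_zero fun c hc' => ?_
          rw [Finset.mem_range] at hc'
          funext T
          exact hc0 c (by omega) T
        conv_rhs => rw [← sub_add_cancel p (∑ c ∈ Finset.range (v - 1), hc c p), koszulD_add, h3,
          add_zero]
      rw [this]
      exact hz0
    · intro T
      rw [mem_pow_idealOfVars_iff']
      intro d hd
      rw [Pi.sub_apply, Finset.sum_apply, coeff_sub, coeff_sum]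
      simp only [hc, coeff_homogeneousComponent]
      rw [Finset.sum_ite_eq (Finset.range (v - 1)) d.degree, if_pos (Finset.mem_range.mpr hd),
        sub_self]
    · intro T hT
      simp only [mkc, Finset.sum_apply]
      rw [Finset.sum_eq_zero, map_zero]
      intro c hc'
      rw [Finset.mem_range] at hc'
      exact (hq c (by omega)).1 T hT
    · rw [bd_mkc, hlow, ← mkc_add, sub_add_cancel]
  · rintro i j g ⟨-, -, p, hp, rfl⟩ h ⟨-, -, p', hp', rfl⟩
    refine ⟨0, fun _ _ => rfl, ?_, rfl⟩
    rw [bd_zero, mul_eq_zero_of hm hp hp']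
  · rintro i g - u rfl
    exact ⟨mul_zero' _, by rw [bar_zero, zero_mul']⟩
  · rintro u u' rfl rfl
    exact mul_zero' _

end Pool.Agent.X51.Golod
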