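import Pool.Agent.X51.Golod.Basic

/-!
The Leibniz rule in the Koszul complex, and products in a Golod ring.
-/

set_option autoImplicit false

namespace Pool.Agent.X51.Golod

open Finset

variable {K R : Type} [Field K] [CommRing R] [Algebra K R] {n : ℕ}

/-- number of inversions -/
def inv (A C : Finset (Fin n)) : ℕ := ((A ×ˢ C).filter (fun p => p.2 < p.1)).card

/-- number of smaller elements -/
def ex (j : Fin n) (T : Finset (Fin n)) : ℕ := (T.filter (· < j)).card

lemma inv_eq (A C : Finset (Fin n)) : inv A C = ∑ a ∈ A, ex a C := by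
  classical
  unfold inv ex
  rw [Finset.card_filter, Finset.sum_product]
  refine Finset.sum_congr rfl fun a _ => ?_
  rw [Finset.card_filter]

lemma inv_insert_left {j : Fin n} {A C : Finset (Fin n)} (hj : j ∉ A) :
    inv (insert j A) C = ex j C + inv A C := by
  rw [inv_eq, inv_eq, Finset.sum_insert hj]

lemma ex_insert {a j : Fin n} {C : Finset (Fin n)} (hj : j ∉ C) :
    ex a (insert j C) = ex a C + if j < a then 1 else 0 := by
  unfold ex
  rw [Finset.filter_insert]
  split_ifs with h
  · rw [Finset.card_insert_of_notMem (by simp [hj])]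
  · rfl

lemma inv_insert_right {j : Fin n} {A C : Finset (Fin n)} (hj : j ∉ C) (hjA : j ∉ A) :
    inv A (insert j C) + ex j A = inv A C + A.card := by
  have h1 : ex j A = ∑ a ∈ A, if a < j then 1 else 0 := by
    unfold ex
    rw [Finset.card_filter]
  rw [inv_eq, inv_eq, h1, ← Finset.sum_add_distrib, Finset.card_eq_sum_ones,
    ← Finset.sum_add_distrib]
  refine Finset.sum_congr rfl fun a ha => ?_
  rw [ex_insert hj]
  have hne : a ≠ j := fun h => hjA (h ▸ ha)
  rcases lt_or_gt_of_ne hne with h | h
  · rw [if_neg (not_lt.mpr h.le), if_pos h]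
  · rw [if_pos h, if_neg (not_lt.mpr h.le)]

lemma ex_union {j : Fin n} {A C : Finset (Fin n)} (h : Disjoint A C) :
    ex j (A ∪ C) = ex j A + ex j C := by
  classical
  unfold ex
  rw [Finset.filter_union, Finset.card_union_of_disjoint]
  exact Finset.disjoint_filter_filter h

lemma pow_parity {a b : ℕ} (h : a % 2 = b % 2) : ((-1 : R)) ^ a = (-1) ^ b := by
  rw [neg_one_pow_eq_pow_mod_two, h, ← neg_one_pow_eq_pow_mod_two]

/-- signs according to the degree -/
def sn (f : Finset (Fin n) → R) (T : Finset (Fin n)) : R := (-1) ^ T.card * f T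

lemma sum_comp_split {M : Type*} [AddCommMonoid M] {A T : Finset (Fin n)} (h : A ⊆ T)
    (F : Fin n → M) : ∑ j ∈ Aᶜ, F j = ∑ j ∈ Tᶜ, F j + ∑ j ∈ T \ A, F j := by
  classical
  rw [← Finset.sum_union]
  · congr 1
    ext j
    simp only [Finset.mem_compl, Finset.mem_union, Finset.mem_sdiff]
    constructor
    · intro hj
      by_cases hT : j ∈ T
      · exact Or.inr ⟨hT, hj⟩
      · exact Or.inl hT
    · rintro (hj | ⟨-, hj⟩)
      · exact fun h' => hj (h h')
      · exact hj
  · rw [Finset.disjoint_left]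
    intro j hj hj'
    rw [Finset.mem_compl] at hj
    exact hj (Finset.mem_sdiff.mp hj').1

/-- the Leibniz rule -/
theorem leibniz (x : Fin n → R) (f g : Finset (Fin n) → R) :
    bd x (mul f g) = mul (bd x f) g + mul (sn f) (bd x g) := by
  classical
  funext T
  rw [Pi.add_apply]
  -- the left-hand side
  have hL : bd x (mul f g) T =
      ∑ A ∈ T.powerset, ∑ j ∈ Tᶜ, (-1) ^ (inv A (T \ A) + ex j A) *
        (x j * (f (insert j A) * g (T \ A))) +
      ∑ A ∈ T.powerset, ∑ j ∈ Tᶜ, (-1) ^ (inv A (T \ A) + (A.card + ex j (T \ A))) *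
        (x j * (f A * g (insert j (T \ A)))) := by
    rw [← Finset.sum_comm, ← Finset.sum_comm (s := Tᶜ) (t := T.powerset) (f := fun j A =>
      (-1) ^ (inv A (T \ A) + (A.card + ex j (T \ A))) * (x j * (f A * g (insert j (T \ A))))),
      ← Finset.sum_add_distrib]
    unfold bd
    refine Finset.sum_congr rfl fun j hj => ?_
    rw [Finset.mem_compl] at hj
    unfold mul
    rw [Finset.sum_powerset_insert hj, ← Finset.sum_add_distrib, ← Finset.sum_add_distrib,
      Finset.mul_sum, Finset.mul_sum]
    refine Finset.sum_congr rfl fun A hA => ?_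
    rw [Finset.mem_powerset] at hA
    have hjA : j ∉ A := fun h => hj (hA h)
    have hjC : j ∉ T \ A := fun h => hj (Finset.mem_sdiff.mp h).1
    have h1 : insert j T \ A = insert j (T \ A) := by
      rw [Finset.insert_sdiff_of_notMem _ hjA]
    have h2 : insert j T \ insert j A = T \ A := by
      rw [Finset.insert_sdiff_insert, Finset.sdiff_insert_of_notMem hj]
    rw [h1, h2]
    have hTu : A ∪ (T \ A) = T := Finset.union_sdiff_of_subset hA
    have h3 : ex j T = ex j A + ex j (T \ A) := by
      rw [← ex_union Finset.disjoint_sdiff, hTu]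
    change (-1) ^ ex j T * (x j * ((-1) ^ inv A (insert j (T \ A)) * (f A * g (insert j (T \ A))) +
      (-1) ^ inv (insert j A) (T \ A) * (f (insert j A) * g (T \ A)))) = _
    have h4 := inv_insert_left (C := T \ A) hjA
    have h5 := inv_insert_right hjC hjA
    have e1 : ((-1 : R)) ^ ex j T * (-1) ^ inv A (insert j (T \ A)) =
        (-1) ^ (inv A (T \ A) + (A.card + ex j (T \ A))) := by
      rw [← pow_add]
      apply pow_parity
      omega
    have e2 : ((-1 : R)) ^ ex j T * (-1) ^ inv (insert j A) (T \ A) =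
        (-1) ^ (inv A (T \ A) + ex j A) := by
      rw [← pow_add]
      apply pow_parity
      omega
    rw [← e1, ← e2]
    ring
  have hR1 : mul (bd x f) g T =
      ∑ A ∈ T.powerset, ∑ j ∈ Tᶜ, (-1) ^ (inv A (T \ A) + ex j A) *
        (x j * (f (insert j A) * g (T \ A))) +
      ∑ A ∈ T.powerset, ∑ j ∈ T \ A, (-1) ^ (inv A (T \ A) + ex j A) *
        (x j * (f (insert j A) * g (T \ A))) := by
    unfold mul
    rw [← Finset.sum_add_distrib]
    refine Finset.sum_congr rfl fun A hA => ?_
    rw [Finset.mem_powerset] at hA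
    unfold bd
    rw [← sum_comp_split hA, Finset.sum_mul, Finset.mul_sum]
    refine Finset.sum_congr rfl fun j _ => ?_
    change (-1) ^ inv A (T \ A) * ((-1) ^ ex j A * (x j * f (insert j A)) * g (T \ A)) = _
    rw [pow_add]
    ring
  have hR2 : mul (sn f) (bd x g) T =
      ∑ A ∈ T.powerset, ∑ j ∈ Tᶜ, (-1) ^ (inv A (T \ A) + (A.card + ex j (T \ A))) *
        (x j * (f A * g (insert j (T \ A)))) +
      ∑ A ∈ T.powerset, ∑ j ∈ A, (-1) ^ (inv A (T \ A) + (A.card + ex j (T \ A))) *
        (x j * (f A * g (insert j (T \ A)))) := by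
    unfold mul
    rw [← Finset.sum_add_distrib]
    refine Finset.sum_congr rfl fun A hA => ?_
    rw [Finset.mem_powerset] at hA
    unfold bd sn
    have h6 := sum_comp_split (A := T \ A) (T := T) Finset.sdiff_subset
      (fun j => (-1) ^ (inv A (T \ A) + (A.card + ex j (T \ A))) *
        (x j * (f A * g (insert j (T \ A)))))
    rw [Finset.sdiff_sdiff_eq_self hA] at h6
    rw [← h6, Finset.mul_sum, Finset.mul_sum]
    refine Finset.sum_congr rfl fun j _ => ?_
    change (-1) ^ inv A (T \ A) * ((-1) ^ A.card * f A *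
      ((-1) ^ ex j (T \ A) * (x j * g (insert j (T \ A))))) = _
    rw [pow_add, pow_add]
    ring
  rw [hL, hR1, hR2]
  have hcan : ∑ A ∈ T.powerset, ∑ j ∈ T \ A, (-1) ^ (inv A (T \ A) + ex j A) *
        (x j * (f (insert j A) * g (T \ A))) +
      ∑ A ∈ T.powerset, ∑ j ∈ A, (-1) ^ (inv A (T \ A) + (A.card + ex j (T \ A))) *
        (x j * (f A * g (insert j (T \ A)))) = 0 := by
    rw [Finset.sum_sigma', Finset.sum_sigma', add_eq_zero_iff_eq_neg, ← Finset.sum_neg_distrib]
    refine Finset.sum_bij' (fun p _ => ⟨insert p.2 p.1, p.2⟩) (fun p _ => ⟨p.1.erase p.2, p.2⟩)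
      ?_ ?_ ?_ ?_ ?_
    · rintro ⟨A, j⟩ h
      simp only [Finset.mem_sigma, Finset.mem_powerset, Finset.mem_sdiff] at h ⊢
      exact ⟨Finset.insert_subset h.2.1 h.1, Finset.mem_insert_self _ _⟩
    · rintro ⟨A, j⟩ h
      simp only [Finset.mem_sigma, Finset.mem_powerset, Finset.mem_sdiff] at h ⊢
      exact ⟨(Finset.erase_subset _ _).trans h.1, h.1 h.2, Finset.notMem_erase _ _⟩
    · rintro ⟨A, j⟩ h
      simp only [Finset.mem_sigma, Finset.mem_powerset, Finset.mem_sdiff] at h
      simp only [Finset.erase_insert h.2.2]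
    · rintro ⟨A, j⟩ h
      simp only [Finset.mem_sigma, Finset.mem_powerset] at h
      simp only [Finset.insert_erase h.2]
    · rintro ⟨A, j⟩ h
      simp only [Finset.mem_sigma, Finset.mem_powerset, Finset.mem_sdiff] at h
      obtain ⟨hA, hjT, hjA⟩ := h
      simp only
      have h1 : insert j (T \ insert j A) = T \ A := by
        ext v
        simp only [Finset.mem_insert, Finset.mem_sdiff, not_or]
        constructor
        · rintro (rfl | h)
          · exact ⟨hjT, hjA⟩
          · exact ⟨h.1, h.2.2⟩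
        · rintro ⟨h2, h3⟩
          by_cases hv : v = j
          · exact Or.inl hv
          · exact Or.inr ⟨h2, hv, h3⟩
      have hjC : j ∉ T \ insert j A := fun h => (Finset.mem_sdiff.mp h).2
        (Finset.mem_insert_self _ _)
      rw [h1]
      have h4 := inv_insert_left (C := T \ insert j A) hjA
      have h5 := inv_insert_right hjC hjA
      rw [h1] at h5
      have h6 : (insert j A).card = A.card + 1 := Finset.card_insert_of_notMem hjA
      have e : ((-1 : R)) ^ (inv A (T \ A) + ex j A) =
          -(-1) ^ (inv (insert j A) (T \ insert j A) + ((insert j A).card +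
            ex j (T \ insert j A))) := by
        have hneg : ∀ m : ℕ, -((-1 : R)) ^ m = (-1) ^ (m + 1) := fun m => by ring
        rw [hneg]
        apply pow_parity
        omega
      rw [e]
      ring
  linear_combination (-1 : R) * hcan

lemma bd_univ (x : Fin n → R) (f : Finset (Fin n) → R) : bd x f Finset.univ = 0 := by
  simp [bd]

lemma mul_add' (f g h : Finset (Fin n) → R) : mul f (g + h) = mul f g + mul f h := by
  funext T
  simp only [mul, Pi.add_apply]
  rw [← Finset.sum_add_distrib]
  exact Finset.sum_congr rfl fun A _ => by ring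

lemma add_mul' (f g h : Finset (Fin n) → R) : mul (f + g) h = mul f h + mul g h := by
  funext T
  simp only [mul, Pi.add_apply]
  rw [← Finset.sum_add_distrib]
  exact Finset.sum_congr rfl fun A _ => by ring

lemma smul_mul' (a : K) (f g : Finset (Fin n) → R) : mul (a • f) g = a • mul f g := by
  funext T
  simp only [mul, Pi.smul_apply]
  rw [Finset.smul_sum]
  refine Finset.sum_congr rfl fun A _ => ?_
  rw [smul_mul_assoc, mul_smul_comm]

lemma mul_smul' (a : K) (f g : Finset (Fin n) → R) : mul f (a • g) = a • mul f g := by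
  funext T
  simp only [mul, Pi.smul_apply]
  rw [Finset.smul_sum]
  refine Finset.sum_congr rfl fun A _ => ?_
  rw [mul_smul_comm, mul_smul_comm]

lemma sn_eq {i : ℕ} {f : Finset (Fin n) → R} (hf : Hom i f) : sn f = fun T => (-1) ^ i * f T := by
  funext T
  unfold sn
  by_cases h : T.card = i
  · rw [h]
  · rw [hf T h, mul_zero, mul_zero]

lemma bar_eq {i : ℕ} {f : Finset (Fin n) → R} (hf : Hom i f) :
    bar f = fun T => (-1) ^ (i + 1) * f T := by
  funext T
  unfold bar
  by_cases h : T.card = i
  · rw [h]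
  · rw [hf T h, mul_zero, mul_zero]

lemma mul_const (c : R) (f g : Finset (Fin n) → R) (T : Finset (Fin n)) :
    mul (fun U => c * f U) g T = c * mul f g T := by
  simp only [mul]
  rw [Finset.mul_sum]
  exact Finset.sum_congr rfl fun A _ => by ring

lemma neg_one_pow_mul_eq_zero {i : ℕ} {r : R} (h : (-1) ^ i * r = 0) : r = 0 := by
  have h1 : ((-1 : R)) ^ i * ((-1) ^ i * r) = r := by
    rw [← mul_assoc, ← pow_add, ← two_mul, pow_mul]
    simp
  rw [← h1, h, mul_zero]

lemma mul_bd_univ (x : Fin n → R) {f g : Finset (Fin n) → R} (hg : bd x g = 0) :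
    mul (bd x f) g Finset.univ = 0 := by
  have h := congrFun (leibniz x f g) Finset.univ
  rw [bd_univ, Pi.add_apply, hg, mul_zero', Pi.zero_apply, add_zero] at h
  exact h.symm

lemma mul_bd_univ' (x : Fin n → R) {i : ℕ} {f g : Finset (Fin n) → R} (hi : Hom i f)
    (hf : bd x f = 0) : mul f (bd x g) Finset.univ = 0 := by
  have h := congrFun (leibniz x f g) Finset.univ
  rw [bd_univ, Pi.add_apply, hf, zero_mul', Pi.zero_apply, zero_add, sn_eq hi, mul_const] at h
  exact neg_one_pow_mul_eq_zero h.symm

/-- In a Golod ring the products of cycles of positive degrees vanish in the top degree. -/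
theorem golod_top {x : Fin n → R} (h : IsGolod K x) {i j : ℕ} {f g : Finset (Fin n) → R}
    (hf : Hom (i + 1) f) (hf0 : bd x f = 0) (hg : Hom (j + 1) g) (hg0 : bd x g = 0) :
    mul f g Finset.univ = 0 := by
  classical
  obtain ⟨ι, μ, h1, h2, h3, h4⟩ := h
  have key : ∀ (b : ι i) (b' : ι j), mul (μ [⟨i, b⟩]) (μ [⟨j, b'⟩]) Finset.univ = 0 := by
    intro b b'
    have h5 := h4 [⟨i, b⟩, ⟨j, b'⟩] (by simp)
    rw [show ([⟨i, b⟩, ⟨j, b'⟩] : List (Σ i, ι i)).length = 2 from rfl,
      show Finset.Ico 1 2 = {1} from rfl, Finset.sum_singleton] at h5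
    have h6 := congrFun h5 Finset.univ
    rw [bd_univ] at h6
    have h7 : Hom (i + 1) (μ [⟨i, b⟩]) := by
      have := h1 [⟨i, b⟩] (by simp)
      simpa using this
    change 0 = mul (bar (μ [⟨i, b⟩])) (μ [⟨j, b'⟩]) Finset.univ at h6
    rw [bar_eq h7, mul_const] at h6
    exact neg_one_pow_mul_eq_zero h6.symm
  have key2 : ∀ b : ι i, mul (μ [⟨i, b⟩]) g Finset.univ = 0 := by
    intro b
    obtain ⟨c, ⟨w, -, hw⟩, -⟩ := h3 j g hg hg0
    have h7 : Hom (i + 1) (μ [⟨i, b⟩]) := by
      have := h1 [⟨i, b⟩] (by simp)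
      simpa using this
    rw [hw, mul_add', Pi.add_apply, mul_bd_univ' x h7 (h2 _), add_zero]
    have h8 : ∀ s : Finset (ι j), mul (μ [⟨i, b⟩]) (∑ a ∈ s, c a • μ [⟨j, a⟩]) Finset.univ = 0 := by
      intro s
      induction s using Finset.induction_on with
      | empty => rw [Finset.sum_empty, mul_zero']; rfl
      | insert a s ha ih =>
        rw [Finset.sum_insert ha, mul_add', Pi.add_apply, ih, mul_smul', Pi.smul_apply, key,
          smul_zero, add_zero]
    exact h8 c.support
  obtain ⟨c, ⟨w, -, hw⟩, -⟩ := h3 i f hf hf0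
  rw [hw, add_mul', Pi.add_apply, mul_bd_univ x hg0, add_zero]
  have h8 : ∀ s : Finset (ι i), mul (∑ a ∈ s, c a • μ [⟨i, a⟩]) g Finset.univ = 0 := by
    intro s
    induction s using Finset.induction_on with
    | empty => rw [Finset.sum_empty, zero_mul']; rfl
    | insert a s ha ih =>
      rw [Finset.sum_insert ha, add_mul', Pi.add_apply, ih, smul_mul', Pi.smul_apply, key2,
        smul_zero, add_zero]
  exact h8 c.support

end Pool.Agent.X51.Golod
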