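import Pool.Agent.X51.Golod.Lift
import Pool.Agent.X51.Golod.Prod

/-!
A Golod monomial ideal `J` in four variables such that `𝔪² J` is not Golod.
-/

set_option autoImplicit false

namespace Pool.Agent.X51.Golod

open Finset MvPolynomial Pool.Agent.H677R3.EdgeReg

variable {K : Type} [Field K]

/-- the ideal of the polynomials all of whose monomials satisfy `P` -/
noncomputable def monoIdeal (K : Type) [Field K] {n : ℕ} (P : (Fin n → ℕ) → Prop)
    (hP : ∀ d e : Fin n →₀ ℕ, P ⇑d → P ⇑(e + d)) : Ideal (MvPolynomial (Fin n) K) where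
  carrier := {p | ∀ d ∈ p.support, P ⇑d}
  add_mem' := by
    classical
    intro p q hp hq d hd
    rcases Finset.mem_union.mp (MvPolynomial.support_add hd) with h | h
    · exact hp d h
    · exact hq d h
  zero_mem' := by
    intro d hd
    simp at hd
  smul_mem' := by
    classical
    intro q p hp d hd
    rw [smul_eq_mul] at hd
    obtain ⟨e, -, f, hf, rfl⟩ := Finset.mem_add.mp (MvPolynomial.support_mul q p hd)
    exact hP f e (hp f hf)

lemma mem_monoIdeal {n : ℕ} {P : (Fin n → ℕ) → Prop}
    {hP : ∀ d e : Fin n →₀ ℕ, P ⇑d → P ⇑(e + d)} {p : MvPolynomial (Fin n) K} :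
    p ∈ monoIdeal K P hP ↔ ∀ d ∈ p.support, P ⇑d := Iff.rfl

/-- degree at least 9 and divisible by some `x_i^6`, or divisible by `(x_1 x_2 x_3 x_4)^5` -/
def PJ (d : Fin 4 → ℕ) : Prop := (9 ≤ ∑ i, d i ∧ ∃ i, 6 ≤ d i) ∨ ∀ i, 5 ≤ d i

lemma PJ_up (d e : Fin 4 →₀ ℕ) (h : PJ ⇑d) : PJ ⇑(e + d) := by
  rcases h with ⟨h1, i, h2⟩ | h
  · refine Or.inl ⟨?_, i, ?_⟩
    · simp only [Finsupp.coe_add, Pi.add_apply, Finset.sum_add_distrib]
      omega
    · simp only [Finsupp.coe_add, Pi.add_apply]
      omega
  · refine Or.inr fun i => ?_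
    have := h i
    simp only [Finsupp.coe_add, Pi.add_apply]
    omega

/-- the ideal `J` -/
noncomputable def JJ (K : Type) [Field K] : Ideal (MvPolynomial (Fin 4) K) := monoIdeal K PJ PJ_up

lemma degree_sum (d : Fin 4 →₀ ℕ) : d.degree = ∑ i, d i := Finsupp.degree_eq_sum d

lemma PJ_deg {d : Fin 4 →₀ ℕ} (h : PJ ⇑d) : 9 ≤ d.degree := by
  rw [degree_sum]
  rcases h with ⟨h, -⟩ | h
  · exact h
  · rw [Fin.sum_univ_four]
    have h0 := h 0
    have h1 := h 1
    have h2 := h 2
    have h3 := h 3
    omega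

lemma PJ_of_deg {d : Fin 4 →₀ ℕ} (h : 20 ≤ d.degree) : PJ ⇑d := by
  rw [degree_sum, Fin.sum_univ_four] at h
  by_cases h6 : ∃ i, 6 ≤ d i
  · refine Or.inl ⟨?_, h6⟩
    rw [Fin.sum_univ_four]
    omega
  · push Not at h6
    refine Or.inr fun i => ?_
    have h0 := h6 0
    have h1 := h6 1
    have h2 := h6 2
    have h3 := h6 3
    fin_cases i <;> simp only [Fin.zero_eta, Fin.mk_one, Fin.reduceFinMk] <;> omega

lemma JJ_hom {p : MvPolynomial (Fin 4) K} (hp : p ∈ JJ K) (c : ℕ) :
    homogeneousComponent c p ∈ JJ K := by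
  intro d hd
  rw [support_homogeneousComponent, Finset.mem_filter] at hd
  exact hp d hd.1

lemma pow_le_JJ : idealOfVars (Fin 4) K ^ 20 ≤ JJ K := by
  intro p hp d hd
  exact PJ_of_deg ((mem_pow_idealOfVars_iff 20 p).mp hp d hd)

lemma JJ_le_pow : JJ K ≤ idealOfVars (Fin 4) K ^ 9 := by
  intro p hp
  rw [mem_pow_idealOfVars_iff]
  exact fun d hd => PJ_deg (hp d hd)

lemma pow_mul_le (a b : ℕ) (h : 20 ≤ a + b) :
    idealOfVars (Fin 4) K ^ a * idealOfVars (Fin 4) K ^ b ≤ JJ K := by
  rw [← pow_add]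
  exact (Ideal.pow_le_pow_right h).trans pow_le_JJ

/-- the combinatorial part -/
lemma not_tor (i e : ℕ) (he1 : 10 ≤ e) (he2 : e ≤ 19) (he3 : e ≠ 11) (he4 : e ≠ 16) :
    ¬ TorNe (JJ K) i e := by
  classical
  refine upper_transfer (JJ K) PJ (fun p => mem_monoIdeal) i e ?_
  intro b hb a ha hac
  -- sums
  have hsum : ∀ T : Finset (Fin 4), ind T ≤ b → ∑ v, (b - ind T) v + T.card = e + i := by
    intro T hT
    rw [← hb, ← sum_ind T, ← Finset.sum_add_distrib]
    refine Finset.sum_congr rfl fun v _ => ?_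
    have := hT v
    simp only [Finsupp.coe_tsub, Pi.sub_apply]
    omega
  have hKK : ∀ T : Finset (Fin 4), T.card = i → KK PJ b T → ∃ l, 6 ≤ (b - ind T) l := by
    rintro T hT ⟨h1, h2⟩
    rcases h2 with ⟨-, h2⟩ | h2
    · exact h2
    · exfalso
      have h3 := hsum T h1
      rw [Fin.sum_univ_four] at h3
      have k0 := h2 0
      have k1 := h2 1
      have k2 := h2 2
      have k3 := h2 3
      omega
  -- it is enough to find a vertex of the cone
  suffices hcone : (∀ T, a T = 0) ∨ ∃ j, b j ≠ 0 ∧ ∀ T, j ∉ T → T.card = i → KK PJ b T →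
      ∃ l, 6 ≤ (b - ind (insert j T)) l by
    rcases hcone with h0 | ⟨j, hj, hcone⟩
    · exact ⟨fun _ => 0, fun T h => absurd rfl h, fun T => by rw [cd_zero, h0]⟩
    · refine ⟨hv j a, fun T hT => ?_, fun T => ?_⟩
      · unfold hv at hT
        split_ifs at hT with hjT
        · have h1 : a (T.erase j) ≠ 0 := fun h => hT (by rw [h, mul_zero])
          obtain ⟨h2, h3⟩ := ha _ h1
          have hcard : T.card = i + 1 := by
            rw [Finset.card_erase_of_mem hjT] at h3
            have : 0 < T.card := Finset.card_pos.mpr ⟨j, hjT⟩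
            omega
          have hle : ind T ≤ b := by
            intro w
            have h4 := h2.1 w
            rw [ind_apply] at h4 ⊢
            by_cases hw : w = j
            · subst hw
              rw [if_pos hjT]
              omega
            · simp only [Finset.mem_erase, ne_eq, hw, not_false_eq_true, true_and] at h4
              exact h4
          obtain ⟨l, hl⟩ := hcone _ (Finset.notMem_erase j T) h3 h2
          rw [Finset.insert_erase hjT] at hl
          refine ⟨⟨hle, Or.inl ⟨?_, l, hl⟩⟩, hcard⟩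
          have h5 := hsum T hle
          omega
        · exact absurd rfl hT
      · have h1 := homotopy j a T
        have h2 : hv j (cd a) T = 0 := by
          unfold hv
          split_ifs
          · rw [hac, mul_zero]
          · rfl
        rwa [h2, add_zero] at h1
  by_cases hA : ∃ j, 1 ≤ b j ∧ b j ≤ 5
  · obtain ⟨j, hj1, hj2⟩ := hA
    refine Or.inr ⟨j, by omega, fun T hjT hT hK => ?_⟩
    obtain ⟨l, hl⟩ := hKK T hT hK
    have hlj : l ≠ j := by
      rintro rfl
      simp only [Finsupp.coe_tsub, Pi.sub_apply] at hl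
      omega
    refine ⟨l, ?_⟩
    simp only [Finsupp.coe_tsub, Pi.sub_apply, ind_apply, Finset.mem_insert, hlj, false_or] at hl ⊢
    exact hl
  · by_cases hB : ∃ j, 7 ≤ b j
    · obtain ⟨j, hj⟩ := hB
      refine Or.inr ⟨j, by omega, fun T hjT hT hK => ⟨j, ?_⟩⟩
      simp only [Finsupp.coe_tsub, Pi.sub_apply, ind_apply, Finset.mem_insert_self, if_true]
      omega
    · push Not at hA hB
      have h06 : ∀ j, b j = 0 ∨ b j = 6 := by
        intro j
        have h1 := hA j
        have h2 := hB j
        by_cases h3 : 1 ≤ b j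
        · have := h1 h3
          omega
        · omega
      obtain ⟨j, hj⟩ : ∃ j, b j ≠ 0 := by
        by_contra h
        push Not at h
        rw [Finset.sum_eq_zero (fun v _ => h v)] at hb
        omega
      refine Or.inr ⟨j, hj, fun T hjT hT hK => ?_⟩
      -- the support of `b`
      set s : Finset (Fin 4) := Finset.univ.filter fun l => b l = 6 with hs
      have hbs : ∑ v, b v = 6 * s.card := by
        rw [hs, Finset.card_filter, Finset.mul_sum]
        refine Finset.sum_congr rfl fun v _ => ?_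
        rcases h06 v with h | h
        · rw [h, if_neg (by norm_num), mul_zero]
        · rw [h, if_pos rfl, mul_one]
      have hsub : insert j T ⊆ s := by
        intro l hl
        rw [hs, Finset.mem_filter]
        refine ⟨Finset.mem_univ _, ?_⟩
        rcases Finset.mem_insert.mp hl with rfl | hl
        · rcases h06 l with h | h
          · exact absurd h hj
          · exact h
        · have h1 := hK.1 l
          rw [ind_apply, if_pos hl] at h1
          rcases h06 l with h | h
          · omega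
          · exact h
      have hcard : (insert j T).card = i + 1 := by
        rw [Finset.card_insert_of_notMem hjT, hT]
      obtain ⟨l, hl, hl'⟩ : ∃ l ∈ s, l ∉ insert j T := by
        by_contra hcon
        push Not at hcon
        have h1 : s = insert j T := Finset.Subset.antisymm hcon hsub
        rw [h1, hcard] at hbs
        omega
      refine ⟨l, ?_⟩
      simp only [Finsupp.coe_tsub, Pi.sub_apply, ind_apply, if_neg hl']
      rw [hs, Finset.mem_filter] at hl
      omega

lemma koszulD_sub {n : ℕ} (p q : Finset (Fin n) → MvPolynomial (Fin n) K) :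
    koszulD (p - q) = koszulD p - koszulD q := by
  have h := koszulD_add (p - q) q
  rw [sub_add_cancel] at h
  rw [h, add_sub_cancel_right]

lemma koszulD_koszulD {n : ℕ} (p : Finset (Fin n) → MvPolynomial (Fin n) K)
    (T : Finset (Fin n)) : koszulD (koszulD p) T = 0 := by
  ext c
  rw [← comp_add_ind, comp_koszulD, coeff_zero]
  have h : comp (koszulD p) (c + ind T) = cd (comp p (c + ind T)) := by
    funext U
    exact comp_koszulD p _ U
  rw [h]
  exact cd_cd _ _

lemma koszulD_hom {n i : ℕ} {p : Finset (Fin n) → MvPolynomial (Fin n) K} (hp : Hom (i + 1) p) :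
    Hom i (koszulD p) := by
  intro T hT
  unfold koszulD
  refine Finset.sum_eq_zero fun j hj => ?_
  rw [Finset.mem_compl] at hj
  rw [hp _ (by rw [Finset.card_insert_of_notMem hj]; omega), mul_zero, mul_zero]

lemma hc_self {n c : ℕ} {p : Finset (Fin n) → MvPolynomial (Fin n) K}
    (hp : ∀ T, (p T).IsHomogeneous c) : hc c p = p := by
  funext T
  exact homogeneousComponent_eq_self (hp T)

/-- cycles modulo `J` whose coefficients have degree `c` are boundaries modulo `J` -/
lemma exact_JJ (i c : ℕ) (hc1 : c ≤ 7 ∨ (9 ≤ c ∧ c ≤ 18 ∧ c ≠ 10 ∧ c ≠ 15))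
    (p : Finset (Fin 4) → MvPolynomial (Fin 4) K) (hp : Hom (i + 1) p)
    (hh : ∀ T, (p T).IsHomogeneous c) (hd : ∀ T, koszulD p T ∈ JJ K) :
    ∃ q : Finset (Fin 4) → MvPolynomial (Fin 4) K, Hom (i + 2) q ∧
      (∀ T, (q T).IsHomogeneous (c - 1)) ∧ mkc (JJ K) p = mkc (JJ K) (koszulD q) := by
  -- exact cycles
  have key : ∀ p' : Finset (Fin 4) → MvPolynomial (Fin 4) K, Hom (i + 1) p' →
      (∀ T, (p' T).IsHomogeneous c) → (∀ T, koszulD p' T = 0) →
      ∃ q : Finset (Fin 4) → MvPolynomial (Fin 4) K, Hom (i + 2) q ∧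
        (∀ T, (q T).IsHomogeneous (c - 1)) ∧ koszulD q = p' := by
    intro p' h1 h2 h3
    obtain ⟨q, hq1, hq2⟩ := exact_poly i c p' h1 h2 h3
    rcases Nat.eq_zero_or_pos c with h0 | h0
    · refine ⟨0, fun _ _ => rfl, fun T => isHomogeneous_zero _ _ _, ?_⟩
      rw [koszulD_zero]
      funext T
      have h4 : p' T = homogeneousComponent 0 (koszulD q T) := by
        rw [hq2 T]
        subst h0
        exact (homogeneousComponent_eq_self (h2 T)).symm
      rw [h4, homogeneousComponent_zero]
      have h5 : coeff 0 (koszulD q T) = 0 := by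
        unfold koszulD
        rw [coeff_sum]
        refine Finset.sum_eq_zero fun j _ => ?_
        rw [coeff_neg_one_pow_mul, coeff_X_mul', if_neg (by simp), mul_zero]
      rw [h5, map_zero]
      rfl
    · refine ⟨hc (c - 1) q, fun T hT => ?_, fun T => homogeneousComponent_isHomogeneous _ _, ?_⟩
      · simp only [hc, hq1 T hT, map_zero]
      · funext T
        rw [koszulD_hc, hq2 T, Nat.sub_add_cancel h0]
        exact homogeneousComponent_eq_self (h2 T)
  rcases hc1 with hc1 | ⟨hc1, hc2, hc3, hc4⟩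
  · have h3 : ∀ T, koszulD p T = 0 := by
      intro T
      have h4 : koszulD p T = homogeneousComponent (c + 1) (koszulD p T) := by
        rw [← koszulD_hc, hc_self hh]
      rw [h4]
      apply homogeneousComponent_eq_zero'
      intro d hd'
      have := PJ_deg (hd T d hd')
      omega
    obtain ⟨q, hq1, hq2, hq3⟩ := key p hp hh h3
    exact ⟨q, hq1, hq2, by rw [hq3]⟩
  · obtain ⟨g, hg1, hg2, hg3⟩ : ∃ g : Finset (Fin 4) → MvPolynomial (Fin 4) K,
        (∀ T, g T ∈ JJ K) ∧ (∀ T, T.card ≠ i + 1 → g T = 0) ∧ ∀ T, koszulD g T = koszulD p T := by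
      by_contra hcon
      refine not_tor (K := K) i (c + 1) (by omega) (by omega) (by omega) (by omega)
        ⟨koszulD p, hd, fun T => ?_, koszulD_hom hp, koszulD_koszulD p, hcon⟩
      have h4 : koszulD p T = homogeneousComponent (c + 1) (koszulD p T) := by
        rw [← koszulD_hc, hc_self hh]
      rw [h4]
      exact homogeneousComponent_isHomogeneous _ _
    have hg' : ∀ T, koszulD (hc c g) T = koszulD p T := by
      intro T
      rw [koszulD_hc, hg3, ← koszulD_hc, hc_self hh]
    obtain ⟨q, hq1, hq2, hq3⟩ := key (p - hc c g) (fun T hT => by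
        simp only [Pi.sub_apply, hc, hp T hT, hg2 T hT, map_zero, sub_zero])
      (fun T => (hh T).sub (homogeneousComponent_isHomogeneous _ _))
      (fun T => by rw [koszulD_sub, Pi.sub_apply, hg', sub_self])
    refine ⟨q, hq1, hq2, ?_⟩
    rw [hq3]
    funext T
    simp only [mkc, Pi.sub_apply, map_sub]
    have h7 : hc c g T ∈ JJ K := JJ_hom (hg1 T) c
    rw [Ideal.Quotient.eq_zero_iff_mem.mpr h7, sub_zero]

lemma mkc_sum {n : ℕ} {α : Type*} (I : Ideal (MvPolynomial (Fin n) K)) (s : Finset α)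
    (p : α → Finset (Fin n) → MvPolynomial (Fin n) K) :
    mkc I (∑ c ∈ s, p c) = ∑ c ∈ s, mkc I (p c) := by
  funext T
  simp only [mkc, Finset.sum_apply, map_sum]

lemma bd_sum {n : ℕ} {R : Type} [CommRing R] {α : Type*} (x : Fin n → R) (s : Finset α)
    (f : α → Finset (Fin n) → R) : bd x (∑ c ∈ s, f c) = ∑ c ∈ s, bd x (f c) := by
  classical
  induction s using Finset.induction_on with
  | empty => simp [bd_zero]
  | insert a s ha ih => rw [Finset.sum_insert ha, Finset.sum_insert ha, bd_add, ih]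

lemma hom_mul {n i j : ℕ} {R : Type} [CommRing R] {f g : Finset (Fin n) → R} (hf : Hom i f)
    (hg : Hom j g) : Hom (i + j) (mul f g) := by
  intro T hT
  unfold mul
  refine Finset.sum_eq_zero fun A hA => ?_
  rw [Finset.mem_powerset] at hA
  by_cases h1 : A.card = i
  · have h2 : (T \ A).card ≠ j := by
      rw [Finset.card_sdiff_of_subset hA]
      have := Finset.card_le_card hA
      omega
    rw [hg _ h2, mul_zero, mul_zero]
  · rw [hf _ h1, zero_mul, mul_zero]

/-- the product of chains over the polynomial ring -/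
noncomputable def pmul {n : ℕ} (p q : Finset (Fin n) → MvPolynomial (Fin n) K) :
    Finset (Fin n) → MvPolynomial (Fin n) K := mul (bar p) q

lemma mkc_pmul {n : ℕ} (I : Ideal (MvPolynomial (Fin n) K))
    (p q : Finset (Fin n) → MvPolynomial (Fin n) K) :
    mkc I (pmul p q) = mul (bar (mkc I p)) (mkc I q) := by
  funext T
  simp only [mkc, pmul, mul, bar, map_sum, map_mul, map_pow, map_neg, map_one]

lemma pmul_homog {n c c' : ℕ} {p q : Finset (Fin n) → MvPolynomial (Fin n) K}
    (hp : ∀ T, (p T).IsHomogeneous c) (hq : ∀ T, (q T).IsHomogeneous c') (T : Finset (Fin n)) :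
    (pmul p q T).IsHomogeneous (c + c') := by
  unfold pmul mul bar
  refine IsHomogeneous.sum _ _ _ fun A _ => ?_
  have h1 : ∀ m : ℕ, ((-1 : MvPolynomial (Fin n) K)) ^ m = C ((-1) ^ m) := fun m => by simp
  rw [h1, h1, mul_assoc (C _)]
  exact (((hp A).mul (hq _)).C_mul _).C_mul _

lemma homog_mem_pow {n c e : ℕ} {p : MvPolynomial (Fin n) K} (hp : p.IsHomogeneous c)
    (h : e ≤ c) : p ∈ idealOfVars (Fin n) K ^ e := by
  rw [mem_pow_idealOfVars_iff']
  intro d hd
  exact hp.coeff_eq_zero (by omega)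

/-- The degrees of the coefficients of the Koszul homology. -/
def Cd (c : ℕ) : Prop := c = 8 ∨ c = 10 ∨ c = 15 ∨ c = 19

/-- `S / J` is Golod. -/
theorem golod_JJ : IsGolod K (xb (JJ K)) := by
  classical
  refine golod_crit (xb (JJ K)) (fun i => {z | Hom (i + 1) z ∧ bd (xb (JJ K)) z = 0 ∧
    ∃ c, Cd c ∧ ∃ p : Finset (Fin 4) → MvPolynomial (Fin 4) K, Hom (i + 1) p ∧
      (∀ T, (p T).IsHomogeneous c) ∧ mkc (JJ K) p = z})
    (fun u => ∃ q : Finset (Fin 4) → MvPolynomial (Fin 4) K,
      (∀ T, q T ∈ idealOfVars (Fin 4) K ^ 15) ∧ mkc (JJ K) q = u) ?_ ?_ ?_ ?_ ?_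
  · rintro i g ⟨hg1, hg2, -⟩
    exact ⟨hg1, hg2⟩
  · intro i z hz hz0
    obtain ⟨p, hp, rfl⟩ := exists_lift (JJ K) (i + 1) z hz
    rw [bd_mkc] at hz0
    have hpI : ∀ T, koszulD p T ∈ JJ K := fun T =>
      Ideal.Quotient.eq_zero_iff_mem.mp (congrFun hz0 T)
    have hcI : ∀ c T, koszulD (hc c p) T ∈ JJ K := by
      intro c T
      rw [koszulD_hc]
      exact JJ_hom (hpI T) _
    have hch : ∀ c, Hom (i + 1) (hc c p) := fun c T hT => by
      simp only [hc, hp T hT, map_zero]
    have hsum : mkc (JJ K) p = ∑ c ∈ Finset.range 20, mkc (JJ K) (hc c p) := by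
      rw [← mkc_sum]
      funext T
      simp only [mkc]
      rw [← sub_eq_zero, ← map_sub, Ideal.Quotient.eq_zero_iff_mem]
      apply pow_le_JJ
      rw [mem_pow_idealOfVars_iff']
      intro d hd
      rw [Finset.sum_apply, coeff_sub, coeff_sum]
      simp only [hc, coeff_homogeneousComponent]
      rw [Finset.sum_ite_eq (Finset.range 20) d.degree, if_pos (Finset.mem_range.mpr hd), sub_self]
    have hq : ∀ c, ∃ q : Finset (Fin 4) → MvPolynomial (Fin 4) K,
        ¬ Cd c → c < 20 → Hom (i + 2) q ∧ mkc (JJ K) (hc c p) = mkc (JJ K) (koszulD q) := by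
      intro c
      by_cases h1 : ¬ Cd c ∧ c < 20
      · obtain ⟨q, hq1, -, hq3⟩ := exact_JJ i c (by
          have := h1.1
          unfold Cd at this
          omega) (hc c p) (hch c) (fun T => homogeneousComponent_isHomogeneous _ _) (hcI c)
        exact ⟨q, fun _ _ => ⟨hq1, hq3⟩⟩
      · exact ⟨0, fun h2 h3 => absurd ⟨h2, h3⟩ h1⟩
    choose q hq using hq
    refine ⟨∑ c ∈ (Finset.range 20).filter Cd, mkc (JJ K) (hc c p), ?_,
      ∑ c ∈ (Finset.range 20).filter (fun c => ¬ Cd c), mkc (JJ K) (q c), ?_, ?_⟩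
    · refine Submodule.sum_mem _ fun c hc' => Submodule.subset_span ⟨?_, ?_, c,
        (Finset.mem_filter.mp hc').2, hc c p, hch c,
        fun T => homogeneousComponent_isHomogeneous _ _, rfl⟩
      · intro T hT
        simp only [mkc, hch c T hT, map_zero]
      · rw [bd_mkc]
        funext T
        exact Ideal.Quotient.eq_zero_iff_mem.mpr (hcI c T)
    · intro T hT
      rw [Finset.sum_apply]
      refine Finset.sum_eq_zero fun c hc' => ?_
      rw [Finset.mem_filter, Finset.mem_range] at hc'
      simp only [mkc, (hq c hc'.2 hc'.1).1 T hT, map_zero]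
    · rw [hsum, bd_sum, ← Finset.sum_filter_add_sum_filter_not (Finset.range 20) Cd]
      congr 1
      refine Finset.sum_congr rfl fun c hc' => ?_
      rw [Finset.mem_filter, Finset.mem_range] at hc'
      rw [bd_mkc, (hq c hc'.2 hc'.1).2]
  · rintro i j g ⟨hg1, hg2, c, hc1, p, hp1, hp2, rfl⟩ h ⟨hh1, hh2, c', hc2, p', hp3, hp4, rfl⟩
    by_cases h20 : 20 ≤ c + c'
    · refine ⟨0, fun _ _ => rfl, ?_, 0, fun T => Submodule.zero_mem _, mkc_zero _⟩
      rw [bd_zero]
      have hm : idealOfVars (Fin 4) K ^ c * idealOfVars (Fin 4) K ^ c' ≤ JJ K := by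
        rw [← pow_add]
        exact (Ideal.pow_le_pow_right h20).trans pow_le_JJ
      exact (mul_eq_zero_of hm (fun T => homog_mem_pow (hp2 T) le_rfl)
        (fun T => homog_mem_pow (hp4 T) le_rfl)).symm
    · have hcc : c + c' = 16 ∨ c + c' = 18 := by
        unfold Cd at hc1 hc2
        omega
      have hbar : Hom (i + 1) (bar p) := fun T hT => by
        unfold bar
        rw [hp1 T hT, mul_zero]
      have hcyc : ∀ T, koszulD (pmul p p') T ∈ JJ K := by
        intro T
        rw [← Ideal.Quotient.eq_zero_iff_mem]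
        have h1 : mkc (JJ K) (koszulD (pmul p p')) = 0 := by
          rw [← bd_mkc, mkc_pmul, leibniz]
          have h2 : bd (xb (JJ K)) (bar (mkc (JJ K) p)) = 0 := by
            rw [bar_eq hg1]
            have h3 : bd (xb (JJ K)) (fun T => (-1) ^ (i + 1 + 1) * mkc (JJ K) p T) =
                fun T => (-1) ^ (i + 1 + 1) * bd (xb (JJ K)) (mkc (JJ K) p) T := by
              funext T
              simp only [bd]
              rw [Finset.mul_sum]
              exact Finset.sum_congr rfl fun j _ => by ring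
            rw [h3, hg2]
            funext T
            simp
          rw [h2, hh2, zero_mul', mul_zero', add_zero]
        exact congrFun h1 T
      have hhom : Hom (i + j + 1 + 1) (pmul p p') := by
        have := hom_mul hbar hp3
        rwa [show i + 1 + (j + 1) = i + j + 1 + 1 by ring] at this
      obtain ⟨q, hq1, hq2, hq3⟩ := exact_JJ (i + j + 1) (c + c') (by omega) (pmul p p') hhom
        (pmul_homog hp2 hp4) hcyc
      refine ⟨mkc (JJ K) q, fun T hT => ?_, ?_, q, fun T => homog_mem_pow (hq2 T) (by omega), rfl⟩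
      · simp only [mkc, hq1 T hT, map_zero]
      · rw [bd_mkc, ← hq3, mkc_pmul]
  · rintro i g ⟨-, -, c, hc1, p, hp1, hp2, rfl⟩ u ⟨q, hq, rfl⟩
    have hc8 : 8 ≤ c := by
      unfold Cd at hc1
      omega
    have hm : idealOfVars (Fin 4) K ^ 8 * idealOfVars (Fin 4) K ^ 15 ≤ JJ K :=
      pow_mul_le 8 15 (by norm_num)
    exact ⟨mul_eq_zero_of hm (fun T => homog_mem_pow (hp2 T) hc8) hq,
      mul_eq_zero_of (by rw [mul_comm]; exact hm) hq (fun T => homog_mem_pow (hp2 T) hc8)⟩
  · rintro u u' ⟨q, hq, rfl⟩ ⟨q', hq', rfl⟩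
    have hm : idealOfVars (Fin 4) K ^ 15 * idealOfVars (Fin 4) K ^ 15 ≤ JJ K :=
      pow_mul_le 15 15 (by norm_num)
    exact mul_eq_zero_of hm hq hq'

end Pool.Agent.X51.Golod
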